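import Pool.Agent.H94.LP3.M03
import Pool.Agent.H94.LP3.M04

namespace Pool.Agent.H18.Fat

open MvPolynomial Finset

/-! ### General points -/

theorem ForGeneralPoints.mono {r k : ℕ} {P Q : (Fin k → Fin (r + 1) → ℂ) → Prop}
    (h : ForGeneralPoints r k P) (hPQ : ∀ p, P p → Q p) : ForGeneralPoints r k Q := by
  obtain ⟨G, hG, hG'⟩ := h
  exact ⟨G, hG, fun p hp => hPQ p (hG' p hp)⟩

theorem ForGeneralPoints.and {r k : ℕ} {P Q : (Fin k → Fin (r + 1) → ℂ) → Prop}
    (h : ForGeneralPoints r k P) (h' : ForGeneralPoints r k Q) :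
    ForGeneralPoints r k fun p => P p ∧ Q p := by
  obtain ⟨G, hG, hG'⟩ := h
  obtain ⟨H, hH, hH'⟩ := h'
  refine ⟨G * H, mul_ne_zero hG hH, fun p hp => ?_⟩
  rw [map_mul] at hp
  exact ⟨hG' p (left_ne_zero_of_mul hp), hH' p (right_ne_zero_of_mul hp)⟩

theorem ForGeneralPoints.coord_ne_zero (r k : ℕ) :
    ForGeneralPoints r k fun p => ∀ i j, p i j ≠ 0 := by
  classical
  refine ⟨∏ x : Fin k × Fin (r + 1), X x, ?_, ?_⟩
  · exact prod_ne_zero_iff.2 fun x _ => X_ne_zero x
  · intro p hp i j
    rw [map_prod] at hp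
    have := prod_ne_zero_iff.1 hp (i, j) (mem_univ _)
    simpa using this

/-! ### Semicontinuity of the dimension -/

/-- The rank of a matrix with polynomial entries does not drop at general parameters. -/
theorem exists_poly_rank {σ R K : Type*} [Fintype R] [Fintype K] [DecidableEq K]
    (N : Matrix R K (MvPolynomial σ ℂ)) (a₀ : σ → ℂ) :
    ∃ G : MvPolynomial σ ℂ, eval a₀ G ≠ 0 ∧
      ∀ a, eval a G ≠ 0 →
        Module.finrank ℂ (LinearMap.range (N.map (eval a₀)).mulVecLin) ≤
          Module.finrank ℂ (LinearMap.range (N.map (eval a)).mulVecLin) := by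
  classical
  set ρ := Module.finrank ℂ (LinearMap.range (N.map (eval a₀)).mulVecLin) with hρ
  let b := Module.finBasis ℂ (LinearMap.range (N.map (eval a₀)).mulVecLin)
  have hb : ∀ i, ∃ v, (N.map (eval a₀)).mulVecLin v = (b i : R → ℂ) := fun i => (b i).2
  choose v hv using hb
  let B : Matrix K (Fin ρ) ℂ := Matrix.of fun x i => v i x
  have hBmul : ∀ (A : Matrix R K ℂ) (c : Fin ρ → ℂ),
      (A * B).mulVec c = ∑ i, c i • A.mulVec (v i) := by
    intro A c
    rw [← Matrix.mulVec_mulVec]
    have h1 : B.mulVec c = ∑ i, c i • v i := by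
      funext x
      simp only [B, Matrix.mulVec, dotProduct, Matrix.of_apply, Finset.sum_apply, Pi.smul_apply,
        smul_eq_mul]
      exact sum_congr rfl fun i _ => mul_comm _ _
    rw [h1, Matrix.mulVec_sum]
    exact sum_congr rfl fun i _ => Matrix.mulVec_smul _ _ _
  have hinj : LinearMap.ker ((N.map (eval a₀)) * B).mulVecLin = ⊥ := by
    rw [LinearMap.ker_eq_bot']
    intro c hc
    rw [Matrix.mulVecLin_apply, hBmul] at hc
    have h2 : ∑ i, c i • b i = 0 := by
      apply Subtype.ext
      rw [Submodule.coe_sum]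
      simp only [Submodule.coe_smul, Submodule.coe_zero]
      rw [← hc]
      refine sum_congr rfl fun i _ => ?_
      rw [← hv i, Matrix.mulVecLin_apply]
    have h3 := Fintype.linearIndependent_iff.1 b.linearIndependent c h2
    funext i
    exact h3 i
  let N' : Matrix R (Fin ρ) (MvPolynomial σ ℂ) := N * B.map (C : ℂ → MvPolynomial σ ℂ)
  have hN' : ∀ a : σ → ℂ, N'.map (eval a) = (N.map (eval a)) * B := by
    intro a
    have hB' : (B.map (C : ℂ → MvPolynomial σ ℂ)).map (eval a) = B := by
      ext i j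
      simp
    change (N * (B.map (C : ℂ → MvPolynomial σ ℂ))).map (eval a) = _
    rw [Matrix.map_mul, hB']
  rw [← hN'] at hinj
  obtain ⟨G, hG1, hG2⟩ := exists_poly_injective N' a₀ hinj
  refine ⟨G, hG1, fun a ha => ?_⟩
  have h4 := hG2 a ha
  rw [hN'] at h4
  have h5 : LinearMap.range ((N.map (eval a)) * B).mulVecLin ≤
      LinearMap.range (N.map (eval a)).mulVecLin := by
    rintro _ ⟨x, rfl⟩
    refine ⟨B.mulVec x, ?_⟩
    rw [Matrix.mulVecLin_apply, Matrix.mulVecLin_apply, Matrix.mulVec_mulVec]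
  have h6 := LinearMap.finrank_range_add_finrank_ker ((N.map (eval a)) * B).mulVecLin
  rw [h4, finrank_bot, add_zero, Module.finrank_fintype_fun_eq_card, Fintype.card_fin] at h6
  rw [← h6]
  exact Submodule.finrank_mono h5

/-- All exponent vectors of degree smaller than `m`. -/
noncomputable def full (n m : ℕ) : Finset (Fin n →₀ ℕ) := by
  classical
  exact (range m).biUnion fun t => mons n t

theorem mem_full {n m : ℕ} {β : Fin n →₀ ℕ} : β ∈ full n m ↔ β.degree < m := by
  classical
  unfold full
  rw [mem_biUnion]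
  constructor
  · rintro ⟨t, ht, hβ⟩
    rw [mem_mons] at hβ
    rw [hβ]
    exact mem_range.1 ht
  · intro h
    exact ⟨_, mem_range.2 h, mem_mons.2 rfl⟩

/-- All linear conditions. -/
noncomputable def fullMat (r d : ℕ) {k : ℕ} (p : Fin k → Fin (r + 1) → ℂ) (m : Fin k → ℕ) :
    Matrix (Σ i : Fin k, {β // β ∈ full (r + 1) (m i)}) (mons (r + 1) d) ℂ :=
  fun x α => tc (p x.1) α.1 x.2.1

noncomputable def genFullMat (r d : ℕ) {k : ℕ} (m : Fin k → ℕ) :
    Matrix (Σ i : Fin k, {β // β ∈ full (r + 1) (m i)}) (mons (r + 1) d)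
      (MvPolynomial (Fin k × Fin (r + 1)) ℂ) :=
  fun x α => ∏ j, (C ((α.1 j).choose (x.2.1 j) : ℂ) * X (x.1, j) ^ (α.1 j - x.2.1 j))

theorem genFullMat_map {r d k : ℕ} (m : Fin k → ℕ) (p : Fin k → Fin (r + 1) → ℂ) :
    (genFullMat r d m).map (eval fun x : Fin k × Fin (r + 1) => p x.1 x.2) =
      fullMat r d p m := by
  ext x α
  simp [genFullMat, fullMat, tc]

theorem toPoly_mem_fatForms_full {r d k : ℕ} (p : Fin k → Fin (r + 1) → ℂ)
    (m : Fin k → ℕ) (f : mons (r + 1) d → ℂ) :
    toPoly (r + 1) d f ∈ fatForms r d p m ↔ (fullMat r d p m).mulVec f = 0 := by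
  constructor
  · intro h
    funext x
    have h1 := h.2 x.1 x.2.1 (mem_full.1 x.2.2)
    rw [coeff_shift_toPoly] at h1
    rw [Pi.zero_apply, ← h1]
    unfold Matrix.mulVec dotProduct fullMat
    exact sum_congr rfl fun α _ => mul_comm _ _
  · intro h
    refine ⟨toPoly_isHomogeneous f, fun i β hdeg => ?_⟩
    have h1 := congrFun h ⟨i, β, mem_full.2 hdeg⟩
    rw [coeff_shift_toPoly]
    rw [Pi.zero_apply] at h1
    rw [← h1]
    unfold Matrix.mulVec dotProduct fullMat
    exact sum_congr rfl fun α _ => mul_comm _ _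

theorem rank_full_add_finrank {r d k : ℕ} (p : Fin k → Fin (r + 1) → ℂ) (m : Fin k → ℕ) :
    Module.finrank ℂ (LinearMap.range (fullMat r d p m).mulVecLin) +
      Module.finrank ℂ (fatForms r d p m) = (d + r).choose r := by
  have h1 : fatForms r d p m = Submodule.map (toPoly (r + 1) d)
      (LinearMap.ker (fullMat r d p m).mulVecLin) := by
    ext F
    constructor
    · intro h
      refine ⟨fun α => coeff α.1 F, ?_, exists_toPoly h.1⟩
      rw [SetLike.mem_coe, LinearMap.mem_ker, Matrix.mulVecLin_apply]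
      rw [← toPoly_mem_fatForms_full, exists_toPoly h.1]
      exact h
    · rintro ⟨f, hf, rfl⟩
      rw [SetLike.mem_coe, LinearMap.mem_ker, Matrix.mulVecLin_apply] at hf
      exact (toPoly_mem_fatForms_full p m f).2 hf
  rw [h1, ← (Submodule.equivMapOfInjective _ (toPoly_injective _ _) _).finrank_eq,
    LinearMap.finrank_range_add_finrank_ker, Module.finrank_fintype_fun_eq_card,
    Fintype.card_coe, card_mons]

/-- Upper semicontinuity of `dim V_d(Γ)`. -/
theorem general_finrank_le {r k : ℕ} (d : ℕ) (p₀ : Fin k → Fin (r + 1) → ℂ) (m : Fin k → ℕ) :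
    ForGeneralPoints r k fun p =>
      Module.finrank ℂ (fatForms r d p m) ≤ Module.finrank ℂ (fatForms r d p₀ m) := by
  classical
  obtain ⟨G, hG1, hG2⟩ := exists_poly_rank (genFullMat r d m)
    (fun x : Fin k × Fin (r + 1) => p₀ x.1 x.2)
  refine ⟨G, ?_, fun p hp => ?_⟩
  · intro h0
    apply hG1
    rw [h0, map_zero]
  · have h1 := hG2 _ hp
    rw [genFullMat_map, genFullMat_map] at h1
    have h2 := rank_full_add_finrank (d := d) p m
    have h3 := rank_full_add_finrank (d := d) p₀ m
    omega

/-! ### Further points impose at most their length -/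

/-! ### Linear changes of coordinates -/

/-- `F(Ax)`. -/
noncomputable def linSubst {n : ℕ} (A : Matrix (Fin n) (Fin n) ℂ) :
    MvPolynomial (Fin n) ℂ →ₐ[ℂ] MvPolynomial (Fin n) ℂ :=
  aeval fun i => ∑ j, C (A i j) * X j

theorem linSubst_comp {n : ℕ} (A B : Matrix (Fin n) (Fin n) ℂ) (F : MvPolynomial (Fin n) ℂ) :
    linSubst B (linSubst A F) = linSubst (A * B) F := by
  have h : (linSubst B).comp (linSubst A) = linSubst (A * B) := by
    apply algHom_ext
    intro i
    simp only [linSubst, AlgHom.comp_apply, aeval_X, map_sum, map_mul, aeval_C, algebraMap_eq,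
      Matrix.mul_apply]
    simp_rw [mul_sum]
    rw [sum_comm]
    refine sum_congr rfl fun j _ => ?_
    rw [sum_mul]
    exact sum_congr rfl fun l _ => by ring
  exact DFunLike.congr_fun h F

theorem linSubst_one {n : ℕ} (F : MvPolynomial (Fin n) ℂ) : linSubst 1 F = F := by
  have h : linSubst (1 : Matrix (Fin n) (Fin n) ℂ) = AlgHom.id ℂ _ := by
    apply algHom_ext
    intro i
    simp only [linSubst, aeval_X, AlgHom.id_apply, Matrix.one_apply]
    rw [sum_eq_single i]
    · simp
    · intro j _ hj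
      simp [Ne.symm hj]
    · intro h
      exact absurd (mem_univ i) h
  rw [h]
  rfl

theorem linSubst_shift {n : ℕ} (A : Matrix (Fin n) (Fin n) ℂ) (q : Fin n → ℂ)
    (F : MvPolynomial (Fin n) ℂ) :
    shift q (linSubst A F) = linSubst A (shift (A.mulVec q) F) := by
  have h : (aeval (fun j => X j + C (q j)) :
      MvPolynomial (Fin n) ℂ →ₐ[ℂ] MvPolynomial (Fin n) ℂ).comp (linSubst A) =
      (linSubst A).comp (aeval (fun j => X j + C (A.mulVec q j))) := by
    apply algHom_ext
    intro i
    simp only [linSubst, AlgHom.comp_apply, aeval_X, map_sum, map_mul, aeval_C, algebraMap_eq,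
      map_add, mul_add, sum_add_distrib, Matrix.mulVec, dotProduct]
  exact DFunLike.congr_fun h F

theorem linSubst_isHomogeneous {n d : ℕ} (A : Matrix (Fin n) (Fin n) ℂ)
    {F : MvPolynomial (Fin n) ℂ} (hF : F.IsHomogeneous d) : (linSubst A F).IsHomogeneous d := by
  have h : ∀ i, (∑ j, C (A i j) * X j : MvPolynomial (Fin n) ℂ).IsHomogeneous 1 := by
    intro i
    apply IsHomogeneous.sum
    intro j _
    exact (isHomogeneous_C_mul_X _ _)
  have := hF.aeval _ h
  simpa [linSubst] using this

/-- Linear substitutions do not decrease the order at the origin. -/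
theorem linSubst_order {n m : ℕ} (A : Matrix (Fin n) (Fin n) ℂ) {G : MvPolynomial (Fin n) ℂ}
    (hG : ∀ β : Fin n →₀ ℕ, β.degree < m → coeff β G = 0) :
    ∀ β : Fin n →₀ ℕ, β.degree < m → coeff β (linSubst A G) = 0 := by
  rw [← mem_pow_idealOfVars_iff'] at hG ⊢
  have h1 := Ideal.mem_map_of_mem (linSubst A) hG
  rw [Ideal.map_pow] at h1
  refine Ideal.pow_right_mono ?_ m h1
  rw [idealOfVars, Ideal.map_span, Ideal.span_le]
  rintro _ ⟨_, ⟨i, rfl⟩, rfl⟩
  simp only [linSubst, aeval_X, SetLike.mem_coe]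
  exact Ideal.sum_mem _ fun j _ => Ideal.mul_mem_left _ _ (Ideal.subset_span ⟨j, rfl⟩)

theorem vanishes_linSubst {n m : ℕ} {A : Matrix (Fin n) (Fin n) ℂ} {q : Fin n → ℂ}
    {F : MvPolynomial (Fin n) ℂ} (h : VanishesToOrder F (A.mulVec q) m) :
    VanishesToOrder (linSubst A F) q m := by
  unfold VanishesToOrder
  rw [linSubst_shift]
  exact linSubst_order A h

/-- The dimension is invariant under linear changes of coordinates. -/
theorem finrank_linSubst {r d : ℕ} {ι : Type*} (p : ι → Fin (r + 1) → ℂ) (m : ι → ℕ)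
    {A B : Matrix (Fin (r + 1)) (Fin (r + 1)) ℂ} (hAB : A * B = 1) :
    Module.finrank ℂ (fatForms r d (fun i => A.mulVec (p i)) m) =
      Module.finrank ℂ (fatForms r d p m) := by
  have hBA : B * A = 1 := mul_eq_one_comm.1 hAB
  have key : ∀ (A B : Matrix (Fin (r + 1)) (Fin (r + 1)) ℂ) (p : ι → Fin (r + 1) → ℂ),
      A * B = 1 → Module.finrank ℂ (fatForms r d (fun i => A.mulVec (p i)) m) ≤
        Module.finrank ℂ (fatForms r d p m) := by
    intro A B p hAB
    have hinj : Function.Injective (linSubst A).toLinearMap := by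
      intro F G hFG
      have h1 : linSubst B (linSubst A F) = linSubst B (linSubst A G) := by
        have : linSubst A F = linSubst A G := hFG
        rw [this]
      rwa [linSubst_comp, linSubst_comp, hAB, linSubst_one, linSubst_one] at h1
    rw [(Submodule.equivMapOfInjective _ hinj
      (fatForms r d (fun i => A.mulVec (p i)) m)).finrank_eq]
    apply Submodule.finrank_mono
    rintro _ ⟨F, hF, rfl⟩
    exact ⟨linSubst_isHomogeneous A hF.1, fun i => vanishes_linSubst (hF.2 i)⟩
  refine le_antisymm (key A B p hAB) ?_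
  have h := key B A (fun i => A.mulVec (p i)) hBA
  have h2 : (fun i => B.mulVec (A.mulVec (p i))) = p := by
    funext i
    rw [Matrix.mulVec_mulVec, hBA, Matrix.one_mulVec]
  rwa [h2] at h

/-! ### Coordinate points -/

/-- Order of vanishing at a coordinate point. -/
theorem vanishes_coord_iff {n d m : ℕ} (f : mons n d → ℂ) (i : Fin n) :
    VanishesToOrder (toPoly n d f) (Pi.single i 1) m ↔
      ∀ α : mons n d, f α ≠ 0 → α.1 i + m ≤ d := by
  classical
  -- Taylor coefficients at the coordinate point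
  have htc : ∀ α β : Fin n →₀ ℕ, tc (Pi.single i 1) α β =
      if ∀ j, j ≠ i → α j = β j then ((α i).choose (β i) : ℂ) else 0 := by
    intro α β
    split_ifs with h
    · unfold tc
      rw [← mul_prod_erase univ _ (mem_univ i)]
      have h1 : ∏ x ∈ univ.erase i, (((α x).choose (β x) : ℂ) *
          (Pi.single i 1 : Fin n → ℂ) x ^ (α x - β x)) = 1 := by
        refine prod_eq_one fun x hx => ?_
        rw [h x (ne_of_mem_erase hx)]
        simp
      rw [h1]
      simp
    · push Not at h
      obtain ⟨j, hji, hj⟩ := h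
      unfold tc
      apply prod_eq_zero (mem_univ j)
      rcases lt_or_gt_of_ne hj with h | h
      · rw [Nat.choose_eq_zero_of_lt h]
        simp
      · rw [Pi.single_eq_of_ne hji, zero_pow (by omega), mul_zero]
  constructor
  · intro h α hα
    by_contra hlt
    push Not at hlt
    -- test with `β = α.erase i`
    have hdeg : (α.1.erase i).degree + α.1 i = d := by
      have h1 := mem_mons.1 α.2
      rw [Finsupp.degree_eq_sum] at h1 ⊢
      rw [← add_sum_erase univ _ (mem_univ i)] at h1 ⊢
      rw [Finsupp.erase_same, zero_add]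
      have h2 : ∑ x ∈ univ.erase i, (α.1.erase i) x = ∑ x ∈ univ.erase i, α.1 x :=
        sum_congr rfl fun x hx => Finsupp.erase_ne (ne_of_mem_erase hx)
      rw [h2]
      omega
    have h3 := h (α.1.erase i) (by omega)
    rw [coeff_shift_toPoly, sum_eq_single α] at h3
    · rw [htc, if_pos (fun j hj => (Finsupp.erase_ne hj).symm), Finsupp.erase_same,
        Nat.choose_zero_right, Nat.cast_one, mul_one] at h3
      exact hα h3
    · intro γ _ hγ
      rw [htc, if_neg, mul_zero]
      intro hall
      apply hγ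
      apply Subtype.ext
      ext j
      have hj' : ∀ j, j ≠ i → γ.1 j = α.1 j := fun j hj => by
        rw [hall j hj, Finsupp.erase_ne hj]
      by_cases hj : j = i
      · subst hj
        have h4 := mem_mons.1 α.2
        have h5 := mem_mons.1 γ.2
        rw [Finsupp.degree_eq_sum, ← add_sum_erase univ _ (mem_univ j)] at h4 h5
        have h6 : ∑ x ∈ univ.erase j, γ.1 x = ∑ x ∈ univ.erase j, α.1 x :=
          sum_congr rfl fun x hx => hj' x (ne_of_mem_erase hx)
        omega
      · exact hj' j hj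
    · intro h4
      exact absurd (mem_univ _) h4
  · intro h β hβ
    rw [coeff_shift_toPoly]
    refine sum_eq_zero fun α _ => ?_
    by_cases hf : f α = 0
    · rw [hf, zero_mul]
    · rw [htc, if_neg, mul_zero]
      intro hall
      have h1 := h α hf
      have h4 := mem_mons.1 α.2
      rw [Finsupp.degree_eq_sum, ← add_sum_erase univ _ (mem_univ i)] at h4 hβ
      have h6 : ∑ x ∈ univ.erase i, α.1 x = ∑ x ∈ univ.erase i, β x :=
        sum_congr rfl fun x hx => hall x (ne_of_mem_erase hx)
      omega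

end Pool.Agent.H18.Fat
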